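import Pool.Agent.P8H34.MB.Stm

/-!
# Project MB, package EIG

If the weights of commuting real matrices have different absolute values at some vector, then there is
a basis of real joint eigenvectors.
-/

set_option autoImplicit false

namespace Pool.Agent.P8H61.MB

/-- the statement of the package EIG, unfolded -/
theorem eig_core (r d : ℕ) (A : (Fin r → ℤ) → Matrix (Fin d) (Fin d) ℝ) 
    (hadd : ∀ u v, A (u + v) = A u * A v) (χ : Fin d → (Fin r → ℤ) → ℂ)
    (hch : ∀ v, ((A v).map (algebraMap ℝ ℂ)).charpoly =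
      ∏ j, (Polynomial.X - Polynomial.C (χ j v)))
    (hjoint : ∀ (μ : (Fin r → ℤ) → ℂ) (u : Fin d → ℂ), u ≠ 0 →
      (∀ v, ((A v).map (algebraMap ℝ ℂ)).mulVec u = μ v • u) → ∃ j, μ = χ j)
    (v₀ : Fin r → ℤ) (hne : ∀ j k, j ≠ k → ‖χ j v₀‖ ≠ ‖χ k v₀‖) :
    ∃ e : Fin d → (Fin d → ℝ), LinearIndependent ℝ e ∧
      ∀ j v, ∃ t : ℝ, |t| = ‖χ j v‖ ∧ (A v).mulVec (e j) = t • e j := by
  classical
  have hinj : ∀ j k, ‖χ j v₀‖ = ‖χ k v₀‖ → j = k := by
    intro j k h
    by_contra hjk
    exact hne j k hjk h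
  -- the roots
  have hroot : ∀ z : ℂ, ((A v₀).charpoly.map (algebraMap ℝ ℂ)).eval z = ∏ j, (z - χ j v₀) := by
    intro z
    rw [← Matrix.charpoly_map, hch v₀, Polynomial.eval_prod]
    simp
  -- all roots are real
  have hreal : ∀ j, ∃ t : ℝ, χ j v₀ = (t : ℂ) := by
    intro j
    rw [← Complex.conj_eq_iff_real]
    have h1 : ((A v₀).charpoly.map (algebraMap ℝ ℂ)).eval (χ j v₀) = 0 := by
      rw [hroot]
      exact Finset.prod_eq_zero (Finset.mem_univ j) (sub_self _)
    have h2 : ((A v₀).charpoly.map (algebraMap ℝ ℂ)).eval ((starRingEnd ℂ) (χ j v₀)) = 0 := by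
      have h3 := congrArg (starRingEnd ℂ) h1
      rw [map_zero, Polynomial.eval_map, Polynomial.hom_eval₂] at h3
      rw [Polynomial.eval_map]
      convert h3 using 2
      ext x
      simp
    rw [hroot, Finset.prod_eq_zero_iff] at h2
    obtain ⟨k, -, hk⟩ := h2
    have h4 : (starRingEnd ℂ) (χ j v₀) = χ k v₀ := sub_eq_zero.1 hk
    have h5 : j = k := by
      apply hinj
      rw [← h4, Complex.norm_conj]
    rw [h4, h5]
  choose τ hτ using hreal
  have hτinj : Function.Injective τ := by
    intro j k h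
    apply hinj
    rw [hτ, hτ, h]
  -- eigenvectors
  have hev : ∀ j, ∃ e : Fin d → ℝ, e ≠ 0 ∧ (A v₀).mulVec e = τ j • e := by
    intro j
    have h1 : (A v₀).charpoly.eval (τ j) = 0 := by
      have h2 := hroot (τ j : ℂ)
      rw [Finset.prod_eq_zero (Finset.mem_univ j) (by rw [hτ j, sub_self])] at h2
      rw [show ((τ j : ℝ) : ℂ) = algebraMap ℝ ℂ (τ j) from rfl,
        Polynomial.eval_map_algebraMap, Polynomial.aeval_algebraMap_apply] at h2
      simpa using h2
    rw [Matrix.eval_charpoly] at h1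
    obtain ⟨e, he, h3⟩ := Matrix.exists_mulVec_eq_zero_iff.2 h1
    refine ⟨e, he, ?_⟩
    rw [Matrix.sub_mulVec, sub_eq_zero] at h3
    rw [← h3]
    funext i
    simp [Matrix.scalar_apply, Matrix.mulVec_diagonal]
  choose e he hAe using hev
  have hli : LinearIndependent ℝ e := by
    apply Module.End.eigenvectors_linearIndependent' (Matrix.toLin' (A v₀)) τ hτinj e
    intro j
    rw [Module.End.hasEigenvector_iff, Module.End.mem_eigenspace_iff]
    exact ⟨by rw [Matrix.toLin'_apply]; exact hAe j, he j⟩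
  refine ⟨e, hli, ?_⟩
  let b := basisOfLinearIndependentOfCardEqFinrank' e hli (by simp)
  have hb : ∀ j, b j = e j := fun j => by simp [b]
  have hcomm : ∀ v, A v₀ * A v = A v * A v₀ := by
    intro v
    rw [← hadd, ← hadd, add_comm]
  have hmul : ∀ j v, (A v).mulVec (e j) = (b.repr ((A v).mulVec (e j)) j) • e j := by
    intro j v
    set w := (A v).mulVec (e j) with hw
    have h1 : (A v₀).mulVec w = τ j • w := by
      rw [hw, Matrix.mulVec_mulVec, hcomm, ← Matrix.mulVec_mulVec, hAe, Matrix.mulVec_smul]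
    have h2 : ∀ k, b.repr ((A v₀).mulVec w) k = τ k * b.repr w k := by
      intro k
      have h3 : (A v₀).mulVec w = ∑ m, (b.repr w m * τ m) • b m := by
        conv_lhs => rw [← b.sum_repr w]
        rw [Matrix.mulVec_sum]
        refine Finset.sum_congr rfl fun m _ => ?_
        rw [Matrix.mulVec_smul, hb, hAe, smul_smul]
      rw [h3, b.repr_sum_self]
      ring
    have h4 : ∀ k, k ≠ j → b.repr w k = 0 := by
      intro k hk
      have h5 := h2 k
      rw [h1, map_smul, Finsupp.smul_apply, smul_eq_mul] at h5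
      have h6 : (τ j - τ k) * b.repr w k = 0 := by linarith
      rcases mul_eq_zero.1 h6 with h7 | h7
      · exact absurd (hτinj (sub_eq_zero.1 h7)).symm hk
      · exact h7
    conv_lhs => rw [← b.sum_repr w]
    rw [Finset.sum_eq_single j, hb]
    · intro k _ hk
      rw [h4 k hk, zero_smul]
    · intro h
      exact absurd (Finset.mem_univ j) h
  intro j v
  refine ⟨b.repr ((A v).mulVec (e j)) j, ?_, hmul j v⟩
  obtain ⟨k, hk⟩ := hjoint (fun v => ((b.repr ((A v).mulVec (e j)) j : ℝ) : ℂ))
    (fun i => ((e j i : ℝ) : ℂ)) (by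
      intro h
      apply he j
      funext i
      have := congrFun h i
      simpa using this) (by
      intro v
      have h1 := hmul j v
      funext i
      have h2 := congrFun h1 i
      have h3 := RingHom.map_mulVec (algebraMap ℝ ℂ) (A v) (e j) i
      have h4 : ((A v).map (algebraMap ℝ ℂ)).mulVec (fun i => ((e j i : ℝ) : ℂ)) i =
          algebraMap ℝ ℂ ((A v).mulVec (e j) i) := h3.symm
      rw [h4, h2]
      simp)
  have h0 : b.repr ((A v₀).mulVec (e j)) j = τ j := by
    rw [hAe, map_smul, Finsupp.smul_apply, ← hb j, b.repr_self]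
    simp
  have hkj : j = k := by
    apply hinj
    have := congrFun hk v₀
    rw [h0, ← hτ j] at this
    rw [this]
  have := congrFun hk v
  rw [← hkj] at this
  rw [← this]
  simp

/-- Package EIG. -/
theorem t_EIG : Pool.Agent.P8H34.MB.S_EIG := by
  intro r d A _ hadd χ hch hjoint ⟨v₀, hne⟩
  exact eig_core r d A hadd χ hch hjoint v₀ hne

end Pool.Agent.P8H61.MB
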