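import Pool.Agent.P8H34.MB.Stm

/-!
# Project MB, package RAT

Integral vectors: in every block all coordinates with respect to the eigenvectors are zero or none
is.
-/

set_option autoImplicit false

open Pool.Agent.N110.CC Pool.Agent.N165.KM Pool.Agent.P8H34.MB
open Filter Topology

namespace Pool.Agent.P8H61.MB

section

variable {r b ρ : ℕ} {d : Fin b → ℕ} {ℓ : Ix d → Frm r} {s : ∀ i, Fin (d i) → Fin ρ → ℤ}
    {G : (Fin r → ℤ) → ((Fin ρ → ℝ) →ₗ[ℝ] (Fin ρ → ℝ))} {e : Module.Basis (Ix d) ℝ (Fin ρ → ℝ)}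

theorem comb_add {k : ℕ} (a : Fin k → Fin ρ → ℤ) (t u : Fin k → ℝ) :
    comb a (t + u) = comb a t + comb a u := by
  unfold comb
  rw [← Finset.sum_add_distrib]
  refine Finset.sum_congr rfl fun j _ => ?_
  rw [Pi.add_apply, add_smul]

theorem comb_smul {k : ℕ} (a : Fin k → Fin ρ → ℤ) (c : ℝ) (t : Fin k → ℝ) :
    comb a (c • t) = c • comb a t := by
  unfold comb
  rw [Finset.smul_sum]
  refine Finset.sum_congr rfl fun j _ => ?_
  rw [Pi.smul_apply, smul_eq_mul, mul_smul]

theorem comb_zero {k : ℕ} (a : Fin k → Fin ρ → ℤ) : comb a 0 = 0 := by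
  have := comb_smul a 0 0
  simpa using this

theorem comb_sum {k : ℕ} {κ : Type*} (a : Fin k → Fin ρ → ℤ) (S : Finset κ)
    (t : κ → Fin k → ℝ) : comb a (∑ m ∈ S, t m) = ∑ m ∈ S, comb a (t m) := by
  classical
  induction S using Finset.induction_on with
  | empty => simp [comb_zero]
  | insert m S hm ih => rw [Finset.sum_insert hm, Finset.sum_insert hm, comb_add, ih]

theorem repr_G (h : Dat d ℓ s G e) (v : Fin r → ℤ) (x : Fin ρ → ℝ) (p : Ix d) :
    e.repr (G v x) p = Real.exp (ev (ℓ p) v) * e.repr x p := by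
  classical
  have h1 : x = ∑ k, e.repr x k • e k := (e.sum_repr x).symm
  have h2 : G v x = ∑ k, (Real.exp (ev (ℓ k) v) * e.repr x k) • e k := by
    conv_lhs => rw [h1]
    rw [map_sum]
    refine Finset.sum_congr rfl fun k _ => ?_
    rw [map_smul, h.eig, smul_smul, mul_comm]
  rw [h2]
  simp [map_sum, Finsupp.single_apply]

/-- the vectors of a block have no coordinates in the other blocks -/
theorem repr_comb (h : Dat d ℓ s G e) (i : Fin b) (t : Fin (d i) → ℝ) (p : Ix d) (hp : p.1 ≠ i) :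
    e.repr (comb (s i) t) p = 0 := by
  classical
  choose u hu using fun j : Fin (d i) => h.mem ⟨i, j⟩
  let L : (Fin (d i) → ℝ) →ₗ[ℝ] (Fin (d i) → ℝ) :=
    { toFun := fun c => ∑ j, c j • u j
      map_add' := by
        intro c c'
        simp [add_smul, Finset.sum_add_distrib]
      map_smul' := by
        intro a c
        simp [mul_smul, Finset.smul_sum] }
  have hL : ∀ c, comb (s i) (L c) = ∑ j, c j • e ⟨i, j⟩ := by
    intro c
    change comb (s i) (∑ j, c j • u j) = _
    rw [comb_sum]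
    refine Finset.sum_congr rfl fun j _ => ?_
    rw [comb_smul, hu j]
  have hinj : Function.Injective L := by
    rw [injective_iff_map_eq_zero]
    intro c hc
    have h1 := hL c
    rw [hc, comb_zero] at h1
    have h2 : LinearIndependent ℝ (fun j : Fin (d i) => e ⟨i, j⟩) :=
      e.linearIndependent.comp (fun j : Fin (d i) => (⟨i, j⟩ : Ix d)) (by
        intro j k hjk
        simpa using hjk)
    funext j
    exact Fintype.linearIndependent_iff.1 h2 c h1.symm j
  obtain ⟨c, rfl⟩ := (LinearMap.injective_iff_surjective.1 hinj) t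
  rw [hL, map_sum, Finsupp.finsetSum_apply]
  refine Finset.sum_eq_zero fun j _ => ?_
  rw [map_smul, Finsupp.smul_apply, e.repr_self, Finsupp.single_apply, if_neg, smul_zero]
  rintro rfl
  exact hp rfl

/-- an integral vector has a multiple which is an integral combination of the `s i j` -/
theorem exists_mul (h : Dat d ℓ s G e) {z : Fin ρ → ℝ} (hz : z ∈ IntL ρ) :
    ∃ (D : ℕ) (a : ∀ i, Fin (d i) → ℤ), 0 < D ∧
      (D : ℝ) • z = ∑ i, comb (s i) (fun m => (a i m : ℝ)) := by
  classical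
  choose m hm using hz
  have hli : LinearIndependent ℚ (fun p : Ix d => fun k => (s p.1 p.2 k : ℚ)) := by
    rw [Fintype.linearIndependent_iff]
    intro g hg p
    have h1 : ∑ p : Ix d, (g p : ℝ) • (fun k => (s p.1 p.2 k : ℝ)) = 0 := by
      funext k
      have h2 := congrFun hg k
      simp only [Finset.sum_apply, Pi.smul_apply, smul_eq_mul, Pi.zero_apply] at h2 ⊢
      have h3 := congrArg (fun x : ℚ => (x : ℝ)) h2
      push_cast at h3
      exact h3
    have h4 := Fintype.linearIndependent_iff.1 h.li (fun p => (g p : ℝ)) h1 p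
    exact_mod_cast h4
  have hcard : Fintype.card (Ix d) = Module.finrank ℚ (Fin ρ → ℚ) := by
    rw [Fintype.card_sigma, Module.finrank_fin_fun]
    simpa using h.card
  have hz' : ∃ c : Ix d → ℚ, ∀ k, (m k : ℚ) = ∑ p, c p * (s p.1 p.2 k : ℚ) := by
    rcases isEmpty_or_nonempty (Ix d) with he | he
    · refine ⟨fun _ => 0, fun k => ?_⟩
      rw [Fintype.card_eq_zero, Module.finrank_fin_fun] at hcard
      exact absurd k.2 (by omega)
    · let bq := basisOfLinearIndependentOfCardEqFinrank hli hcard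
      refine ⟨fun p => bq.repr (fun k => (m k : ℚ)) p, fun k => ?_⟩
      have h1 := bq.sum_repr (fun k => (m k : ℚ))
      have h2 := congrFun h1 k
      simp only [Finset.sum_apply, Pi.smul_apply, smul_eq_mul] at h2
      rw [← h2]
      refine Finset.sum_congr rfl fun p _ => ?_
      simp [bq]
  obtain ⟨c, hc⟩ := hz'
  have hDpos : 0 < ∏ p, (c p).den := Finset.prod_pos fun p _ => (c p).den_pos
  have hint : ∀ p, ∃ a : ℤ, ((∏ p, (c p).den : ℕ) : ℚ) * c p = a := by
    intro p
    obtain ⟨w, hw⟩ := Finset.dvd_prod_of_mem (fun p => (c p).den) (Finset.mem_univ p)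
    refine ⟨(w : ℤ) * (c p).num, ?_⟩
    rw [hw]
    have h1 : ((c p).den : ℚ) * c p = (c p).num := by
      rw [mul_comm]
      exact Rat.mul_den_eq_num (c p)
    push_cast
    calc ((c p).den : ℚ) * w * c p = w * (((c p).den : ℚ) * c p) := by ring
      _ = w * (c p).num := by rw [h1]
  choose a ha using hint
  refine ⟨∏ p, (c p).den, fun i j => a ⟨i, j⟩, hDpos, ?_⟩
  have h1 : ∀ k, ((∏ p, (c p).den : ℕ) : ℚ) * (m k : ℚ) =
      ∑ i, ∑ j, (a ⟨i, j⟩ : ℚ) * (s i j k : ℚ) := by
    intro k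
    rw [hc k, Finset.mul_sum, ← Fintype.sum_sigma' (fun i j => (a ⟨i, j⟩ : ℚ) * (s i j k : ℚ))]
    refine Finset.sum_congr rfl fun p _ => ?_
    rw [← mul_assoc, ha p]
  funext k
  have h2 := congrArg (fun x : ℚ => (x : ℝ)) (h1 k)
  push_cast at h2
  rw [Pi.smul_apply, smul_eq_mul, hm k]
  push_cast
  rw [h2, Finset.sum_apply]
  refine Finset.sum_congr rfl fun i _ => ?_
  unfold comb
  rw [Finset.sum_apply]
  refine Finset.sum_congr rfl fun j _ => ?_
  rw [Pi.smul_apply, smul_eq_mul]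

/-- small integral vectors are zero -/
theorem eq_zero_of_norm_lt {x : Fin ρ → ℝ} (hx : x ∈ IntL ρ) (h : ‖x‖ < 1) : x = 0 := by
  funext k
  obtain ⟨m, hm⟩ := hx k
  have h1 : |x k| < 1 := lt_of_le_of_lt (norm_le_pi_norm x k) h
  rw [hm] at h1 ⊢
  have h2 : |m| < 1 := by exact_mod_cast h1
  rw [Int.abs_lt_one_iff.1 h2]
  simp

theorem comb_mem_IntL {k : ℕ} (a : Fin k → Fin ρ → ℤ) (t : Fin k → ℤ) :
    comb a (fun m => (t m : ℝ)) ∈ IntL ρ := by
  intro j
  refine ⟨∑ m, t m * a m j, ?_⟩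
  unfold comb
  rw [Finset.sum_apply]
  push_cast
  rfl

end

/-- Package RAT. -/
theorem t_RAT : S_RAT := by
  classical
  intro r b ρ d ℓ s G e h z hz i
  by_contra hcon
  push Not at hcon
  obtain ⟨⟨j', hj'⟩, ⟨j, hj⟩⟩ := hcon
  obtain ⟨D, a, hD, hDz⟩ := exists_mul h hz
  have hD0 : (D : ℝ) ≠ 0 := by exact_mod_cast hD.ne'
  -- the component in the block
  obtain ⟨z', hz'⟩ : ∃ z', z' = comb (s i) (fun m => (a i m : ℝ)) := ⟨_, rfl⟩
  have hint : z' ∈ IntL ρ := by
    rw [hz']
    exact comb_mem_IntL _ _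
  have hin : ∀ q : Ix d, q.1 = i → e.repr z' q = D * e.repr z q := by
    intro q hq
    have h1 : e.repr ((D : ℝ) • z) q = ∑ k, e.repr (comb (s k) (fun m => (a k m : ℝ))) q := by
      rw [hDz, map_sum, Finsupp.finsetSum_apply]
    rw [map_smul, Finsupp.smul_apply, smul_eq_mul] at h1
    rw [h1, Finset.sum_eq_single i, hz']
    · intro k _ hk
      exact repr_comb h k _ q (by rw [hq]; exact hk.symm)
    · intro hcon
      exact absurd (Finset.mem_univ i) hcon
  have hout : ∀ q : Ix d, q.1 ≠ i → e.repr z' q = 0 := by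
    intro q hq
    rw [hz']
    exact repr_comb h i _ q hq
  have hpj : e.repr z' ⟨i, j⟩ = 0 := by
    rw [hin ⟨i, j⟩ rfl, hj, mul_zero]
  obtain ⟨v, -, -, hv⟩ := h.blk.dir ⟨i, j⟩
  -- the limit
  have hlim : Tendsto (fun k : ℕ => G (k • v) z') atTop (𝓝 0) := by
    have h1 : (fun k : ℕ => G (k • v) z') = fun k : ℕ =>
        ∑ q, (Real.exp (ev (ℓ q) v) ^ k * e.repr z' q) • e q := by
      funext k
      rw [← e.sum_repr (G (k • v) z')]
      refine Finset.sum_congr rfl fun q _ => ?_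
      rw [repr_G h, ev_nsmul, Real.exp_nat_mul]
    have h2 : (0 : Fin ρ → ℝ) = ∑ q : Ix d, (0 : ℝ) • e q := by simp
    rw [h1, h2]
    refine tendsto_finsetSum _ fun q _ => ?_
    refine Tendsto.smul_const ?_ _
    by_cases hq : q.1 = i
    · by_cases hqj : q = ⟨i, j⟩
      · subst hqj
        rw [hpj]
        simp
      · have h3 := hv q hqj hq
        have h4 : Real.exp (ev (ℓ q) v) < 1 := by
          rw [Real.exp_lt_one_iff]
          exact h3
        have h5 := (tendsto_pow_atTop_nhds_zero_of_lt_one (Real.exp_pos _).le h4).mul_const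
          (e.repr z' q)
        rwa [zero_mul] at h5
    · rw [hout q hq]
      simp
  have hev : ∀ᶠ k : ℕ in atTop, ‖G (k • v) z'‖ < 1 := by
    have h1 := hlim.norm
    rw [norm_zero] at h1
    exact h1.eventually (gt_mem_nhds one_pos)
  obtain ⟨k, hk⟩ := hev.exists
  have h0 : G (k • v) z' = 0 := eq_zero_of_norm_lt (h.int _ _ hint) hk
  have h1 : e.repr (G (k • v) z') ⟨i, j'⟩ = 0 := by
    rw [h0, map_zero]
    rfl
  rw [repr_G h, hin ⟨i, j'⟩ rfl] at h1
  rcases mul_eq_zero.1 h1 with h2 | h2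
  · exact (Real.exp_pos _).ne' h2
  · rcases mul_eq_zero.1 h2 with h3 | h3
    · exact hD0 h3
    · exact hj' h3

end Pool.Agent.P8H61.MB
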